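import Pool.Agent.Helper65_PV.Stmts

/-!
Squad PV, module FIN: the Baire argument.
-/

set_option autoImplicit false

open MeasureTheory Metric Set Filter Topology

namespace PV.H48

open PV

/-- `Determined` is the intersection of the sets `DD`. -/
theorem determined_eq (n : ℕ) : Determined n = ⋂ m : ℕ, DD n m := by
  ext K
  rw [Set.mem_iInter]
  constructor
  · rintro ⟨h1, h2⟩ m
    refine ⟨h1, ?_⟩
    intro L hL _ hS
    rw [h2 L hL hS, dist_self]
    positivity
  · intro h
    refine ⟨(h 0).1, ?_⟩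
    intro L hL hS
    obtain ⟨R, hR⟩ := L.isCompact.isBounded.subset_closedBall (0 : E n)
    obtain ⟨m0, hm0⟩ := exists_nat_ge R
    apply eq_of_dist_eq_zero
    apply le_antisymm _ dist_nonneg
    apply le_of_forall_pos_le_add
    intro e he
    obtain ⟨m1, hm1⟩ := exists_nat_one_div_lt he
    have h3 := (h (max m0 m1)).2 L hL
      (hR.trans (closedBall_subset_closedBall
        (hm0.trans (by exact_mod_cast le_max_left m0 m1)))) hS
    have h4 : 1 / (((max m0 m1 : ℕ) : ℝ) + 1) ≤ 1 / ((m1 : ℝ) + 1) := by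
      apply one_div_le_one_div_of_le
      · positivity
      · have : (m1 : ℝ) ≤ ((max m0 m1 : ℕ) : ℝ) := by exact_mod_cast le_max_right m0 m1
        linarith
    linarith

/-- A common support point. -/
theorem support_point (n : ℕ) (ν : E n) (K L : ConvexBody (E n))
    (hK : ∀ m, K ∈ U n ν m) (hL : Full (L : Set (E n)))
    (hS : SameData (K : Set (E n)) (L : Set (E n))) :
    ∃ x ∈ (L : Set (E n)), ∀ y ∈ (K : Set (E n)), inner ℝ y ν ≤ inner ℝ x ν := by
  obtain ⟨R, hR⟩ := L.isCompact.isBounded.subset_closedBall (0 : E n)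
  obtain ⟨m0, hm0⟩ := exists_nat_ge R
  have h1 : ∀ m : ℕ, ∃ x ∈ (L : Set (E n)), ∀ y ∈ (K : Set (E n)),
      inner ℝ y ν < inner ℝ x ν + 1 / ((m : ℝ) + 1) := by
    intro m
    obtain ⟨x, hx, -, hy⟩ := (hK (max m0 m)).2 L hL
      (hR.trans (closedBall_subset_closedBall
        (hm0.trans (by exact_mod_cast le_max_left m0 m)))) hS
    refine ⟨x, hx, fun y hyK => ?_⟩
    have h4 : 1 / (((max m0 m : ℕ) : ℝ) + 1) ≤ 1 / ((m : ℝ) + 1) := by
      apply one_div_le_one_div_of_le
      · positivity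
      · have : (m : ℝ) ≤ ((max m0 m : ℕ) : ℝ) := by exact_mod_cast le_max_right m0 m
        linarith
    have := hy y hyK
    linarith
  choose x hxL hx using h1
  obtain ⟨a, haL, φ, hφ, hlim⟩ := L.isCompact.tendsto_subseq hxL
  refine ⟨a, haL, fun y hy => ?_⟩
  have h2 : Tendsto (fun j => inner ℝ (x (φ j)) ν + 1 / (((φ j : ℕ) : ℝ) + 1)) atTop
      (𝓝 (inner ℝ a ν + 0)) := by
    apply Tendsto.add
    · exact (hlim.inner tendsto_const_nhds)
    · exact tendsto_one_div_add_atTop_nhds_zero_nat.comp hφ.tendsto_atTop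
  rw [add_zero] at h2
  exact ge_of_tendsto' h2 (fun j => (hx (φ j) y hy).le)

/-- Common support points in a dense set of directions give inclusion. -/
theorem subset_of_support (n : ℕ) (K L : ConvexBody (E n))
    (s : Set (sphere (0 : E n) 1)) (hs : Dense s)
    (h : ∀ ν ∈ s, ∃ x ∈ (L : Set (E n)), ∀ y ∈ (K : Set (E n)),
      inner ℝ y (ν : E n) ≤ inner ℝ x (ν : E n)) :
    (K : Set (E n)) ⊆ (L : Set (E n)) := by
  intro y hy
  by_contra hyL
  obtain ⟨f, u, h1, h2⟩ := geometric_hahn_banach_closed_point L.convex L.isClosed hyL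
  -- the Riesz vector
  set a : E n := (InnerProductSpace.toDual ℝ (E n)).symm f with ha
  have hfa : ∀ z : E n, f z = inner ℝ a z := by
    intro z
    rw [ha, InnerProductSpace.toDual_symm_apply]
  obtain ⟨b, hb⟩ := L.nonempty
  have ha0 : a ≠ 0 := by
    intro h0
    have h3 := h1 b hb
    rw [hfa, h0, inner_zero_left] at h3
    rw [hfa, h0, inner_zero_left] at h2
    linarith
  have hna : 0 < ‖a‖ := norm_pos_iff.2 ha0
  set c : E n := ‖a‖⁻¹ • a with hc
  have hcn : ‖c‖ = 1 := by
    rw [hc, norm_smul, norm_inv, norm_norm, inv_mul_cancel₀ hna.ne']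
  have hca : a = ‖a‖ • c := by
    rw [hc, smul_smul, mul_inv_cancel₀ hna.ne', one_smul]
  obtain ⟨R, hR⟩ := L.isCompact.isBounded.subset_closedBall (0 : E n)
  -- the gap
  set g : ℝ := f y - u with hg
  have hgpos : 0 < g := by rw [hg]; linarith
  set T : ℝ := ‖a‖ * (|R| + ‖y‖ + 1) with hT
  have hTpos : 0 < T := by positivity
  have hcs : (⟨c, by rw [mem_sphere_zero_iff_norm]; exact hcn⟩ : sphere (0 : E n) 1) ∈
      closure s := hs _
  rw [Metric.mem_closure_iff] at hcs
  obtain ⟨ν, hνs, hν⟩ := hcs (g / T) (by positivity)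
  rw [Subtype.dist_eq, dist_eq_norm] at hν
  simp only at hν
  obtain ⟨x, hxL, hx⟩ := h ν hνs
  have h3 := hx y hy
  have hxR : ‖x‖ ≤ |R| := by
    have := hR hxL
    rw [mem_closedBall_zero_iff] at this
    exact this.trans (le_abs_self R)
  -- compare
  have h4 : f x < u := h1 x hxL
  have h5 : inner ℝ (x - y) (c - (ν : E n)) ≥ -(‖x - y‖ * ‖c - (ν : E n)‖) := by
    have := abs_real_inner_le_norm (x - y) (c - (ν : E n))
    exact (abs_le.1 this).1
  have h6 : f x - f y = ‖a‖ * inner ℝ (x - y) c := by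
    rw [hfa, hfa, ← inner_sub_right, real_inner_comm]
    conv_lhs => rw [hca]
    rw [inner_smul_right]
  have h7 : inner ℝ (x - y) c = inner ℝ (x - y) (c - (ν : E n)) + inner ℝ (x - y) (ν : E n) := by
    rw [← inner_add_right, sub_add_cancel]
  have h8 : 0 ≤ inner ℝ (x - y) (ν : E n) := by
    rw [inner_sub_left]; linarith
  have h9 : ‖x - y‖ ≤ |R| + ‖y‖ := (norm_sub_le x y).trans (by linarith)
  have h10 : ‖x - y‖ * ‖c - (ν : E n)‖ ≤ (|R| + ‖y‖) * (g / T) := by
    apply mul_le_mul h9 hν.le (norm_nonneg _) (by positivity)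
  have h11 : ‖a‖ * ((|R| + ‖y‖) * (g / T)) < g := by
    have e1 : ‖a‖ * ((|R| + ‖y‖) * (g / T)) = (‖a‖ * (|R| + ‖y‖)) * g / T := by ring
    rw [e1, div_lt_iff₀ hTpos, mul_comm g T]
    apply mul_lt_mul_of_pos_right _ hgpos
    rw [hT]
    have : ‖a‖ * (|R| + ‖y‖ + 1) = ‖a‖ * (|R| + ‖y‖) + ‖a‖ := by ring
    rw [this]; linarith
  have h12 : f x - f y ≥ -g := by
    rw [h6, h7]
    have : ‖a‖ * (inner ℝ (x - y) (c - (ν : E n)) + inner ℝ (x - y) (ν : E n)) ≥
        ‖a‖ * (-((|R| + ‖y‖) * (g / T))) := by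
      apply mul_le_mul_of_nonneg_left _ hna.le
      linarith
    have h13 : ‖a‖ * (-((|R| + ‖y‖) * (g / T))) = -(‖a‖ * ((|R| + ‖y‖) * (g / T))) := by ring
    rw [h13] at this
    linarith
  rw [hg] at h12
  linarith

/-- FIN: the main theorem. -/
theorem fin (hUO : UOStmt) (hDO : DOStmt) (hUD : UDStmt) (hCS : CSStmt) (hMO : MOStmt) :
    MainStmt := by
  intro n hn
  have hn2 : 2 ≤ n := by omega
  constructor
  · rw [determined_eq]
    exact IsGδ.iInter_of_isOpen (fun m => hDO n hn2 m)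
  · have := hCS n
    obtain ⟨s, hsc, hsd⟩ := TopologicalSpace.exists_countable_dense (sphere (0 : E n) 1)
    have hcs : Countable s := hsc.to_subtype
    have hdense : Dense (⋂ p : s × ℕ, U n (p.1.1 : E n) p.2) := by
      apply dense_iInter_of_isOpen
      · intro p
        exact hUO n hn2 _ _
      · intro p
        exact hUD n hn _ (mem_sphere_zero_iff_norm.1 p.1.1.2) _
    apply hdense.mono
    intro K hK
    rw [Set.mem_iInter] at hK
    have hne : Nonempty (sphere (0 : E n) 1) := by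
      refine ⟨⟨EuclideanSpace.single ⟨0, by omega⟩ 1, ?_⟩⟩
      rw [mem_sphere_zero_iff_norm]
      simp
    obtain ⟨ν0, hν0⟩ := hsd.nonempty
    have hKF : Full (K : Set (E n)) := (hK (⟨ν0, hν0⟩, 0)).1
    refine ⟨hKF, ?_⟩
    intro L hL hS
    have hsub : (K : Set (E n)) ⊆ (L : Set (E n)) := by
      apply subset_of_support n K L s hsd
      intro ν hν
      exact support_point n ν K L (fun m => hK (⟨ν, hν⟩, m)) hL hS
    apply SetLike.coe_injective
    exact hMO n hn2 K L K.isCompact K.convex hKF L.isCompact L.convex hL hS hsub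

end PV.H48
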